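import Pool.Agent.Lib.HC.All

/-!
# The Hodge conjecture for abelian varieties of CM type (times real multiplication)

THEOREM. Let `T` be a complex abelian variety isogenous to `A × B_1 × … × B_n`, `n ≥ 0`, with `A` of
CM type and `B_i` with real multiplication by a totally real field of degree `dim B_i` (`n = 0`: `T`
of CM type; `B_i`: elliptic curves, abelian surfaces with real or quaternionic multiplication, the
factors of the Jacobians of the modular curves `X_1(N)`, …). Then every Hodge class on `T` is a
combination of classes of algebraic cycles. There is no hypothesis.

## The statement (`Lib/HC/Defs.lean`, `Lib/HC/L/Defs.lean`)

* `HC.AV`: a complex abelian variety `T = V / L`. `HC.Hlg T m` is `H_m(T, ℂ)`: the class `c` is given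
  by its integrals `c (a₁, …, a_m)` over the translation invariant forms `a₁ ∧ … ∧ a_m`.
* `HC.IsHodge T m c`: `c` is a Hodge class (rational, of type `(m/2, m/2)`). By Poincare duality
  `H_2k(T, ℚ) = H^(2g-2k)(T, ℚ)(g)` these are the Hodge classes of all codimensions.
* `HC.Alg T m c`: generated by (1) the classes `w_* [X]`, `X = D / Γ` a compact complex manifold, `w` a
  holomorphic map to `T` (`X` is not supposed to be projective; its image is an analytic subset of `T`
  by Remmert's theorem, hence algebraic by Chow's theorem), (2) images under homomorphisms of abelian
  varieties, (3) Pontryagin products, (4) intersections with rational classes of type `(1,1)`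
  (these are classes of divisors by Lefschetz), (5) complex linear combinations. So all its elements
  are complex combinations of classes of algebraic cycles. Such a combination which is rational is
  a rational combination, because the classes of cycles are rational (linear algebra).
* `HC.IsCM`, `HC.IsRM`, `HC.IsProdE`: CM type, real multiplication, isogeny to the product.

## The proof

`K` a Galois CM field, `G = Gal(K/ℚ)`, `F = K^+`, `A_f` the abelian variety of the CM type `f` of `K`.
(1) (`Lib/HC`, parts D, E, J) A Hodge class on a product of the `A_f` is a combination of products of
eigenvectors of `K` in `H_1`; the CM types `f_1, …, f_2k` (subsets of `G`) of the eigenvectors satisfy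
`∑ f_i = k`. (2) (parts F, G, I; Hazama, Andre) Up to pairs `f, 1 - f` (divisors) these relations are
generated by the four term relations `f_1 + f_2 = f_3 + f_4`. (3) THEOREM T2 (`Lib/CMT`): if
`f_1 + f_2 = f_3 + f_4` and all `f_i` contain the embedding `τ₀`, there is a compact quotient `X` of the
complex ball of dimension 2 by an arithmetic group (`h = <1, 1, -β>` over `K`, signature `(2,1)` at
`τ₀` and definite at the other places) with holomorphic maps to the `A_(f_i)` such that the integral
over `X` of `ω_1 ∧ ω_2 ∧ conj (ω_3 ∧ ω_4)` is not zero, `ω_i` the pull back of the eigenform of `A_(f_i)`
at `τ₀`. The image of `X` in the product of the four `A_(f_i)` has a non-zero component in the line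
of the relation, and by (1) that component is algebraic.
The forms `ω_i` are explicit theta series (`CMT.om`), attached to `a_i ∈ F` whose signs at the real places
give `f_i`. THEOREM T1, the integral: choose `a_1 X² + a_2 Y² = a_3` of the right signs (weak
approximation); then `<a_1, a_2> = <a_3, a_4>`, and the two products `ω_1 ∧ ω_2`, `ω_3 ∧ ω_4` are values of one
kernel (see-saw) at two points of a family of majorants; the orbit of the first point under the
rational isometries is dense, so if all integrals vanished the square norm of the second product
would vanish. THEOREM (C'), the CM type of the periods of `ω_i`: for every place `t` there is a vector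
valued theta form with values in the standard representation at `t`; on the curves `z_k = ρ` in the
ball the form `ω_i` is a coordinate of it, so a Galois conjugate of the periods of `ω_i` is on these
curves the period homomorphism of a cocycle with values in the (conjugate) standard representation at
`τ₀`, and such cocycles are holomorphic (Kodaira vanishing for the tautological bundle, here by an
averaging operator and one Bochner identity). (4) (`Lib/HC/L`) The factors `B_i`: the Hodge Lie algebra of
`A × B_1 × … × B_n` is a product, and Künneth.

`HC.part2` (not part of the hand-in) is the same for `A × B`, `B` with perfect Hodge Lie algebra and with the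
Hodge conjecture.

## Context

Known before: divisors; exotic classes on special CM abelian varieties (Shioda, Schoen, Markman);
Hodge classes on abelian varieties are absolutely Hodge (Deligne), and for CM type they come from
Weil classes (Andre). Consequences by published theorems: the Mumford-Tate conjecture is known for
these `T` (Pohlmann, Ribet, Commelin), so the Tate conjecture holds for them over fields of
characteristic zero; the Hodge and Tate conjectures for all Fermat varieties (Shioda, Katsura); the
Tate conjecture for abelian varieties over finite fields (Milne).
-/

set_option autoImplicit false

namespace Pool.Agent.Results.MP_640417_ag.CMHodge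

/-- **The Hodge conjecture for abelian varieties isogenous to `A × B_1 × … × B_n`, `A` of CM type,
`B_i` with real multiplication of degree `dim B_i`, `n ≥ 0`.** -/
theorem result : ∀ (A T : HC.AV) (n : ℕ) (B : Fin n → HC.AV), HC.IsCM A → (∀ i, HC.IsRM (B i)) →
    HC.IsProdE T A B → ∀ (m : ℕ) (c : HC.Hlg T m), HC.IsHodge T m c → HC.Alg T m c :=
  HC.part3

end Pool.Agent.Results.MP_640417_ag.CMHodge
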