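import Pool.Agent.Lib.MP_640417_ag.Kf.Final

/-!
# The Mumford-Tate conjecture for every variety: one Tate class, one Frobenius element, a bounded number of variables

Let `X` be a smooth projective variety over a field finitely generated over `ℚ` with semisimple cohomology and let `V`
be the sum of all `H^j(X)(j/2)` (for odd `j` over a finite extension, over which half of a Tate twist exists) with the
Poincaré duality pairing composed with powers of the Lefschetz operator, or a part `H^j(X)` of it, for example `H¹(A)` for
an abelian variety `A`. The Tate forms in `k` variables on `V` are the Tate classes on `X ^ k`.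

Let `Z` be a family of spaces of Tate forms which are known to have some property (for example to be combinations of
algebraic classes, or of motivated or absolute Hodge classes), stable under the Galois group, which contains all Tate
forms in two variables, and let `L = LieOf Z` be the Lie algebra of the maps which kill them. For the motivated
classes `L` is the Lie algebra of the motivic Galois group of `X` (over `ℚ_l`), for the Hodge classes of an abelian variety
it is the Lie algebra of the Hodge group, and the (motivic) Mumford-Tate conjecture says that `L` kills all Tate forms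
in any number of variables (`KillsAll`).

There is one Tate form `κ` in four variables, which does not depend on `Z`, such that up to the center of `L` the following
are equivalent: `L` kills all Tate forms; `L` kills the Tate forms in four variables; `L` kills `κ`; almost all elements of
the Galois group near the identity are good for `L`; one element is good for `L` (its powers are regular in `L`, and the
roots have different values). Including the center, the same is true with a condition on the determinants of the components
of `V`, and it is also equivalent that `L` kills the Tate forms in at most `bnd (dim V) b` variables, an explicit number.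

If `Z` consists of the Tate forms in two variables, `L` is the Lefschetz Lie algebra, and this decides if all Tate forms are
generated by those in two variables and by determinants of subrepresentations.
-/

namespace Pool.Agent.Results.MP_640417_ag.KnownClasses

open Module MeasureTheory Pool.Agent.Lib.MP_640417_ag Pool.Agent.Lib.MP_640417_ag.Frob
  Pool.Agent.Lib.MP_640417_ag.Dfr Pool.Agent.Lib.MP_640417_ag.Fr
  Pool.Agent.Lib.MP_640417_ag.Fg Pool.Agent.Lib.MP_640417_ag.Kf

/-- **One Tate form, one Frobenius element, a bounded number of variables decide the Mumford-Tate conjecture for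
every variety.** -/
theorem result (l : ℕ) [Fact l.Prime] {Γ : Type} [Group Γ] [TopologicalSpace Γ]
    [IsTopologicalGroup Γ] [CompactSpace Γ] [MeasurableSpace Γ] [BorelSpace Γ]
    (ν : Measure Γ) [ν.IsHaarMeasure] {V : Type} [AddCommGroup V] [Module ℚ_[l] V]
    [FiniteDimensional ℚ_[l] V] (ρ : FormRep Γ ℚ_[l] V) (hss : Semisimple ρ) :
    ∃ κ : MultilinearMap ℚ_[l] (fun _ : Fin 4 => V) ℚ_[l], TateG ρ 4 κ ∧
      (∀ Z : Fam ℚ_[l] V, Known ρ Z →
        List.TFAE [∀ k, Controls ρ (LieOf Z) k, Controls ρ (LieOf Z) 4,
          ∀ X ∈ LieOf Z, ∀ v, DF X κ v = 0, NearOne ν (GoodFor ρ (LieOf Z)),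
          ∃ γ, GoodFor ρ (LieOf Z) γ] ∧
        ∀ c b, Dense {γ | FrobLike ρ c b γ} →
          List.TFAE [KillsAll ρ (LieOf Z),
            ∀ k ≤ bnd (finrank ℚ_[l] V) b, ∀ f, TateG ρ k f → ∀ X ∈ LieOf Z, ∀ v, DF X f v = 0,
            (∀ X ∈ LieOf Z, ∀ v, DF X κ v = 0) ∧ ¬ WeilFor ρ (LieOf Z),
            NearOne ν (fun γ => GoodFor ρ (LieOf Z) γ ∧ (FrobLike ρ c b γ → DetFor ρ (LieOf Z) γ)),
            ∃ γ, FrobLike ρ c b γ ∧ GoodFor ρ (LieOf Z) γ ∧ DetFor ρ (LieOf Z) γ]) ∧
      Known ρ (TwoZ ρ) ∧ (∀ X, X ∈ LieOf (TwoZ ρ) ↔ Lef ρ X) ∧
      List.TFAE [∀ k, Controls ρ (LieOf (TwoZ ρ)) k, ∀ k f, TateG ρ k f → Generated ρ k f,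
        ∀ f, TateG ρ 4 f → (∀ z, CenSkew ρ z → ∀ v, DF z f v = 0) → Generated ρ 4 f,
        Near ν (GoodF ρ), ∀ D : Set Γ, Dense D → ∃ γ ∈ D, GoodF ρ γ, ∃ γ, DetectsF ρ γ] :=
  known_classes l ν ρ hss

end Pool.Agent.Results.MP_640417_ag.KnownClasses
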