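import Pool.Agent.Lib.TATE.All

/-!
# The Tate conjecture for products of new parts of Jacobians of very general cyclic covers of the line

THEOREM. For every `p` there is a meagre set `M p` in `ℂ ^ p` such that for `s = (s_1, …, s_p)` outside `M p` the
following holds. Let `k ⊂ ℂ` be the algebraic closure of `ℚ(s)`. Let `T` be isogenous to a product `J_1 × … × J_N`,
where each `J_n` is (isogenous to) the new part of the Jacobian of a cyclic covering `C_n` of degree `m_n ≥ 3` of the
projective line, all of whose branch points are in the set `{∞, s_1, …, s_p}`, with `r_n + 2 ≥ 5` branch points, and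
`J_n` with the map `γ_n` of the curve `C_n` to `J_n` is defined over `k`. Let `ℓ` be a prime and `i ≥ 0`, and assume for
every `n`: `J_n` is BALANCED (for every `u` prime to `m_n` half of the `r_n` forms with the character `u` are of the first
kind), or `J_n` is not of CM type (for some `u` the number `p_u` of forms of the first kind with the character `u`
satisfies `0 < p_u < r_n`) and `r_n > 2 i`. Then every Tate class in
`H_{2i}(T, ℚ_ℓ)(-i) = H^{2(g-i)}(T, ℚ_ℓ)(g-i)`, `g = dim T`, is a `ℚ_ℓ`-linear combination of classes of
algebraic cycles. So Q1 holds in ALL degrees if all factors are balanced, for all `ℓ`: for any number of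
factors, any multiplicities, any degrees `m_n`, any isogenies between the factors. These are the cases with exotic
(Weil) classes: for balanced `J_n` the Weil classes of `J_n` are Hodge classes.

CONVENTIONS. Abelian varieties `T = V / L` over `ℂ` (`HC.AV`). `H1 T ℓ = Hom(L, ℚ_ℓ) = H¹(T, ℚ_ℓ)`;
`HL T ℓ d = H_d(T, ℚ_ℓ) = Λ^d V_ℓ(T)`: alternating forms on `H¹(T, ℚ_ℓ)`. `Fix s A`: the automorphisms of `ℂ` which
fix `s` and `A`; for finite sets `A` of numbers algebraic over `ℚ(s)` (`AlgO`) the images of these groups in
`Gal(k / ℚ(s))` are open, and every open subgroup contains one of them. ACTION ON TORSION POINTS: `J_n` is generated by the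
curve, so a torsion point `v` is the image `∑ e_k γ(P_k)` of a divisor of degree `0` of the curve, and
`σ(v) = ∑ e_k γ(σ P_k)` (`GR`); `IsMod` says that this is well defined in `V / L` for `σ ∈ Fix s A`, that is, `J_n` and `γ_n`
are defined over `ℚ(s, A)` (true for suitable `A` for every model over `k`). `IsAct`: the action on
`Hom(T_ℓ(J_n), ℤ_ℓ)`; `IsCh`: the cyclotomic character; `IsTate`: an open subgroup of the Galois group fixes the
class `c` of `H_{2i}(T, ℚ_ℓ)(-i)`; it is enough to know `c` on the pull backs (`IsPb`) of the forms of the `J_n`. `IsAl`: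
`c = ∑ x_k C_k`, `x_k ∈ ℚ_ℓ`, `C_k` rational classes which are combinations of classes of algebraic cycles
(`AlgC`: `ℂ`-combinations of the classes `w_*[D / Γ]` of holomorphic maps of compact complex manifolds to `T` and of
algebraic subsets of products of curves, stable under homomorphisms, Pontryagin products and cap products
with rational `(1,1)`-forms).

There are no hypotheses: the theorem of the fixed part, the comparison of Galois action and monodromy, and the
algebraicity of the Hodge classes are proved in Lean. The curves `C_n`, the factors and the cycles are over `k`: cycles on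
`T` over `ℂ` specialise to cycles over `k` with the same class.
-/

set_option autoImplicit false

namespace Pool.Agent.Results.MP_640417_ag.NewJacobians

open HC HC.CC TATE

/-- **The theorem.** -/
theorem result :
    ∃ M : (p : ℕ) → Set (Fin p → ℂ), (∀ p, IsMeagre (M p)) ∧
    ∀ (p : ℕ) (s : Fin p → ℂ), s ∉ M p →
    ∀ (T : AV) (N : ℕ) (J : Fin N → AV) (γ : ∀ n, Cur (J n)) (g : ∀ n, T.V → (J n).V) (i : ℕ),
      (∀ n, IsBn s (2 * i) (γ n)) → IsPr g →
      ∀ (ℓ : ℕ) [Fact ℓ.Prime] (c : HL T ℓ (2 * i)), IsTate s γ g ℓ i c → IsAl c :=
  TATE.main

end Pool.Agent.Results.MP_640417_ag.NewJacobians
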