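import Pool.Agent.Lib.MP_640417_ag.Sharp.All
import Pool.Agent.Lib.MP_640417_ag.Wc.IrrIn
import Pool.Agent.Lib.MP_640417_ag.Sm.UpperN
import Pool.Agent.Lib.MP_640417_ag.Sm.LowerN
import Pool.Agent.Lib.MP_640417_ag.Sm.SubAN
import Pool.Agent.Lib.MP_640417_ag.Sm.SubBN
import Pool.Agent.Lib.MP_640417_ag.Sm.SubCN
import Pool.Agent.Lib.MP_640417_ag.Sm.BigOut
import Pool.Agent.Lib.MP_640417_ag.Sm.SpOut
import Pool.Agent.Lib.MP_640417_ag.Sm.RelN
import Pool.Agent.Lib.MP_640417_ag.Sm.LowSpN
import Pool.Agent.Lib.MP_640417_ag.Sm.DihOut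
import Pool.Agent.Lib.MP_640417_ag.Sm.LowDihN
import Pool.Agent.Lib.MP_640417_ag.Sm.FieldN
import Pool.Agent.Lib.MP_640417_ag.Sm.TransN
import Pool.Agent.Lib.MP_640417_ag.Sm.LowQuadN
import Pool.Agent.Lib.MP_640417_ag.Sm.AlgK
import Pool.Agent.Lib.MP_640417_ag.Sm.NotIn
import Pool.Agent.Lib.MP_640417_ag.Sm.Bot

/-!
# A sharp criterion for Tate classes on CM abelian varieties

Let `E` be a CM field of degree `2 g` and `M` a subfield. We count the CM types `Φ` on `E` for which
some power of `A_Φ` has a Tate class which is not generated by the Tate classes of codimension `1` and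
the Tate classes fixed by the norm one torus of `E / M` (classes of Weil type for `M`). The share of
these CM types is, up to constants and an error `(log g) ^ (-1/4)`, equal to an explicit quantity
`rate E M g`, which only depends on the numbers of certain subfields of `E` of degree `2, 4, 6, 8, 12`
which are not contained in `M`. For classes of codimension at most `k` the upper bound improves by the
factor `k / [E : M]`. For `M = ℚ` the Tate classes in question are the exotic ones.
-/

namespace Pool.Agent.Results.MP_640417_ag.SharpCriterion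

open NumberField Module MulAction Pool.Agent.Lib.MP_640417_ag Pool.Agent.Lib.MP_640417_ag.Far
  Pool.Agent.Lib.MP_640417_ag.Full Pool.Agent.Lib.MP_640417_ag.Sharp

open Classical in
/-- `x` is fixed by the norm one torus of `E / M`: by all diagonal automorphisms of `H¹(Aⁿ)` with
entries `t φ` whose products over the embeddings with the same restriction to `M` are `1`. -/
def NormFixed {E : Type} [Field E] [NumberField E] {F : Type} [Field F]
    (M : IntermediateField ℚ E) {n : ℕ} (x : ExteriorAlgebra F (H1 E n F)) : Prop :=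
  ∀ t : Emb E → F, (∀ ψ : Emb E, ∏ φ : Emb E, (if ∀ y ∈ M, φ y = ψ y then t φ else 1) = 1) →
    ExteriorAlgebra.map (LinearMap.pi fun p => t p.1 • LinearMap.proj p :
      H1 E n F →ₗ[F] H1 E n F) x = x

/-- The algebra generated by the Tate classes of codimension `1` and the Tate classes fixed by
the norm one torus of `E / M`. -/
noncomputable def normAlg {E : Type} [Field E] [NumberField E] {Γ : Type} [Group Γ]
    [TopologicalSpace Γ] {F : Type} [Field F] (M : IntermediateField ℚ E) (n : ℕ)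
    (T : Γ → H1 E n F →ₗ[F] H1 E n F) (χ : Γ →* Fˣ) :
    Subalgebra F (ExteriorAlgebra F (H1 E n F)) :=
  Algebra.adjoin F {x | TateClass T χ 1 x ∨ ((∃ i : ℕ, TateClass T χ i x) ∧ NormFixed M x)}

/-- A Tate class of codimension `i` on the power `Aⁿ` which is not generated by the Tate classes of
codimension `1` and the Tate classes fixed by the norm one torus of `E / M`. -/
def OutsideClass {E : Type} [Field E] [NumberField E] {Φ : Set (Emb E)} {Γ : Type} [Group Γ]
    [TopologicalSpace Γ] {F : Type} [Field F] (ρ : CMGaloisRep Φ Γ F)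
    (M : IntermediateField ℚ E) (n i : ℕ) (x : ExteriorAlgebra F (H1 E n F)) : Prop :=
  TateClass (ρ.onH1 n) ρ.χ i x ∧ x ∉ normAlg M n (ρ.onH1 n) ρ.χ

/-- Some power `Aⁿ` has such a class, for some Galois representation of CM type `(E, Φ)` over a field
of characteristic zero. -/
def Beyond {E : Type} [Field E] [NumberField E] (M : IntermediateField ℚ E)
    (Φ : Set (Emb E)) : Prop :=
  ∃ (Γ : Type) (_ : Group Γ) (_ : TopologicalSpace Γ) (F : Type) (_ : Field F) (_ : CharZero F)
    (ρ : CMGaloisRep Φ Γ F) (n i : ℕ) (x : ExteriorAlgebra F (H1 E n F)), OutsideClass ρ M n i x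

/-- The same with a class of codimension at most `k`. -/
def BeyondUpTo {E : Type} [Field E] [NumberField E] (M : IntermediateField ℚ E) (k : ℕ)
    (Φ : Set (Emb E)) : Prop :=
  ∃ (Γ : Type) (_ : Group Γ) (_ : TopologicalSpace Γ) (F : Type) (_ : Field F) (_ : CharZero F)
    (ρ : CMGaloisRep Φ Γ F) (n i : ℕ) (x : ExteriorAlgebra F (H1 E n F)),
    i ≤ k ∧ OutsideClass ρ M n i x

/-- Some power `Aⁿ` has such a class, for every Galois representation of CM type `(E, Φ)` over every
field of characteristic zero. -/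
def AlwaysBeyond {E : Type} [Field E] [NumberField E] (M : IntermediateField ℚ E)
    (Φ : Set (Emb E)) : Prop :=
  ∀ (Γ : Type) (_ : Group Γ) (_ : TopologicalSpace Γ) (F : Type) (_ : Field F) (_ : CharZero F)
    (ρ : CMGaloisRep Φ Γ F), ∃ (n i : ℕ) (x : ExteriorAlgebra F (H1 E n F)),
    OutsideClass ρ M n i x

/-- No two embeddings lie in the same translates of `Φ` (`A_Φ` is simple). -/
def IsPrimitive {E : Type} [Field E] [NumberField E] (Φ : Set (Emb E)) : Prop :=
  ∀ φ ψ : Emb E, (∀ τ : AbsGal, galEmb τ φ ∈ Φ ↔ galEmb τ ψ ∈ Φ) → φ = ψ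

/-- The number of CM types on `E` with the property `P`. -/
noncomputable def numTypes (E : Type) [Field E] [NumberField E] [IsCMField E]
    (P : Set (Emb E) → Prop) : ℕ := {Φ : Set (Emb E) | IsCMType Φ ∧ P Φ}.ncard

section counts

variable (E : Type) [Field E] [NumberField E] [IsCMField E] (M : IntermediateField ℚ E)

/-- The number of nonreal quadratic subfields not contained in `M`. -/
noncomputable def numQuad : ℕ :=
  {K : IntermediateField ℚ E | (finrank ℚ K = 2 ∧ ∃ x ∈ K, IsCMField.complexConj E x ≠ x) ∧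
    ¬ K ≤ M}.ncard

/-- The number of nonreal quartic subfields without a nonreal quadratic subfield, not contained in
`M`. -/
noncomputable def numQuart : ℕ :=
  {K : IntermediateField ℚ E | (finrank ℚ K = 4 ∧ (∃ x ∈ K, IsCMField.complexConj E x ≠ x) ∧
    ∀ K' : IntermediateField ℚ E, K' ≤ K → finrank ℚ K' = 2 →
      ∀ x ∈ K', IsCMField.complexConj E x = x) ∧ ¬ K ≤ M}.ncard

/-- The number of nonreal sextic subfields with a nonreal quadratic subfield, not contained in
`M`. -/
noncomputable def numSext : ℕ :=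
  {K : IntermediateField ℚ E | (finrank ℚ K = 6 ∧ (∃ x ∈ K, IsCMField.complexConj E x ≠ x) ∧
    ∃ K' : IntermediateField ℚ E, K' ≤ K ∧ finrank ℚ K' = 2 ∧
      ∃ x ∈ K', IsCMField.complexConj E x ≠ x) ∧ ¬ K ≤ M}.ncard

/-- The number of nonreal subfields which are Galois over `ℚ` with a dihedral group of order
`2 n`, not contained in `M`. -/
noncomputable def numDih (n : ℕ) : ℕ :=
  {K : IntermediateField ℚ E | ((∃ x ∈ K, IsCMField.complexConj E x ≠ x) ∧ IsGalois ℚ K ∧
    Nonempty ((K ≃ₐ[ℚ] K) ≃* DihedralGroup n)) ∧ ¬ K ≤ M}.ncard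

/-- The rate of the CM types with Tate classes which do not come from `M`. -/
noncomputable def rate (g : ℕ) : ℝ :=
  (if 2 ∣ g then (numQuad E M : ℝ) / Real.sqrt g else 0)
    + ((if 4 ∣ g then (numQuart E M : ℝ) else 0) + numSext E M) / g
    + ((numDih E M 4 : ℝ) + numDih E M 6) * Real.log g / g

omit [IsCMField E] in
/-- The degree `[E : M]`. -/
noncomputable def relDegree : ℕ := finrank M E

end counts

section aux

variable {E : Type} [Field E] [NumberField E] [IsCMField E]

/-- There are `2 ^ g` CM types. -/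
lemma two_pow_le (g : ℕ) (hg : finrank ℚ E = 2 * g) :
    2 ^ g ≤ {Φ : Set (Emb E) | IsCMType Φ}.ncard := by
  classical
  obtain ⟨X, hX⟩ := exists_transversal (conjEmb (E := E)) conjEmb_conjEmb conjEmb_ne
  have hXcard : X.card = g := by
    have h1 := two_mul_card_transversal (conjEmb (E := E)) conjEmb_conjEmb X hX
    rw [card_emb, hg] at h1
    omega
  let f : Finset (Emb E) → Set (Emb E) := fun A => {φ | (φ ∈ X ∧ φ ∈ A) ∨ (φ ∉ X ∧ conjEmb φ ∉ A)}
  have h1 : (↑(X.powerset) : Set (Finset (Emb E))).ncard = 2 ^ g := by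
    rw [Set.ncard_coe_finset, Finset.card_powerset, hXcard]
  rw [← h1]
  apply Set.ncard_le_ncard_of_injOn f
  · intro A _
    intro φ
    have h2 := hX φ
    by_cases h3 : φ ∈ X
    · have h4 : conjEmb φ ∉ X := h2.mp h3
      simp [f, h3, h4, conjEmb_conjEmb]
    · have h4 : conjEmb φ ∈ X := by
        by_contra h
        exact h3 (h2.mpr h)
      simp [f, h3, h4]
  · intro A hA B hB hAB
    rw [Finset.mem_coe, Finset.mem_powerset] at hA hB
    ext φ
    have h3 : φ ∈ f A ↔ φ ∈ f B := by rw [hAB]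
    by_cases h4 : φ ∈ X
    · simpa [f, h4] using h3
    · exact ⟨fun h => absurd (hA h) h4, fun h => absurd (hB h) h4⟩

/-- A property of CM types which gives a property of sign functions. -/
lemma numTypes_le (z : galGroup E) (hzs : ∀ φ : Emb E, z • φ = conjEmb φ)
    (P : Set (Emb E) → Prop) (Q : (Emb E → ℤ) → Prop)
    (h : ∀ Φ : Set (Emb E), IsCMType Φ → P Φ → Q (fun φ => sgnZ Φ φ)) :
    numTypes E P ≤ {e : Emb E → ℤ | IsSgn z e ∧ Q e}.ncard := by
  apply Set.ncard_le_ncard_of_injOn (fun Φ => fun φ => sgnZ Φ φ) (ht := finite_isSgn z _)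
  · rintro Φ ⟨hΦ, hP⟩
    refine ⟨⟨sgnZ_eq_one_or Φ, fun s => ?_⟩, h Φ hΦ hP⟩
    rw [hzs]
    exact sgnZ_conj hΦ s
  · intro Φ _ Ψ _ h
    ext φ
    have h1 := congrFun h φ
    simp only [sgnZ] at h1
    by_cases h2 : φ ∈ Φ <;> by_cases h3 : φ ∈ Ψ <;> simp [h2, h3] at h1 ⊢

end aux

/-- For `M = ℚ` the classes in question are the exotic Tate classes. -/
def RatIsExotic : Prop :=
  ∀ (E : Type) [Field E] [NumberField E] [IsCMField E] (Φ : Set (Emb E)), IsCMType Φ →
    ∀ (Γ : Type) [Group Γ] [TopologicalSpace Γ] (F : Type) [Field F] [CharZero F]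
      (ρ : CMGaloisRep Φ Γ F) (n i : ℕ) (x : ExteriorAlgebra F (H1 E n F)),
      OutsideClass ρ ⊥ n i x ↔ ExoticTateClass (ρ.onH1 n) ρ.χ i x

/-- **CM types and Tate classes.** For all CM fields `E` of sufficiently large degree `2 g` and all
subfields `M` of `E`: the share of the CM types `Φ` for which some power of `A_Φ` has a Tate class which
does not come from codimension `1` and `M` is at most `C (rate E M g + (log g) ^ (-1/4))`; with the
restriction to Tate classes of codimension at most `k` it is at most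
`C (min (1, k / [E : M]) rate E M g + (log g) ^ (-1/4))`; and the share of the primitive `Φ` with such a
Tate class is at least `c min (1, rate E M g)`. For `M = ℚ` these Tate classes are the exotic ones. -/
theorem result : (∃ c C : ℝ, 0 < c ∧ 0 < C ∧ ∃ g₀ : ℕ,
    ∀ (E : Type) [Field E] [NumberField E] [IsCMField E] (g : ℕ), finrank ℚ E = 2 * g → g₀ ≤ g →
      ∀ M : IntermediateField ℚ E,
      (numTypes E (Beyond M) : ℝ)
        ≤ C * (rate E M g + Real.log g ^ (-(1 / 4) : ℝ)) * numTypes E (fun _ => True) ∧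
      (∀ k : ℕ, (numTypes E (BeyondUpTo M k) : ℝ)
        ≤ C * (min 1 ((k : ℝ) / relDegree E M) * rate E M g + Real.log g ^ (-(1 / 4) : ℝ))
          * numTypes E (fun _ => True)) ∧
      c * min 1 (rate E M g) * numTypes E (fun _ => True)
        ≤ (numTypes E (fun Φ => IsPrimitive Φ ∧ AlwaysBeyond M Φ) : ℝ)) ∧ RatIsExotic := by
  classical
  refine ⟨?_, fun E _ _ _ Φ hΦ Γ _ _ F _ _ ρ n i x => ?_⟩
  · obtain ⟨C, hC, hup⟩ := Sm.fieldsN (Sm.countN qMult qMod qBig qTwo qSplit pSum pMat Sm.pSubAN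
      pPar1 (Sm.pSubBN pEvIndex pEvSp pParQ) (Sm.pSubCN pKerDih) qTwoLog Wc.pIrrIn Sm.pBigOut)
      (Sm.pFieldN pCorrA pCorrG) pCorrA
    obtain ⟨c, hc, g₀, hlow⟩ := Sm.lower_fieldsN (Sm.pLowQuadN pCorrA)
      (Sm.pLowSpN pUnion qSpLow pSpDim qSpSep pLocal (Sm.pSpOut pSpDim) Sm.pRelN)
      (Sm.pLowDihN pUnion pDihSys qDihLow qDihPair (Sm.pDihOut pLocal))
      (Sm.pFieldN pCorrA pCorrG) (Sm.pTransN (Sm.pFieldN pCorrA pCorrG)) pCorrA
    refine ⟨c, C, hc, hC, max g₀ 2, ?_⟩
    intro E _ _ _ g hE hg M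
    have hg1 : g₀ ≤ g := le_trans (le_max_left _ _) hg
    have hg2 : 2 ≤ g := le_trans (le_max_right _ _) hg
    obtain ⟨cc, hcc⟩ := exists_galEmb_conj E
    let act := galAction E
    let z : galGroup E := ⟨MulAction.toPermHom AbsGal (Emb E) cc, ⟨cc, rfl⟩⟩
    have hzs : ∀ φ : Emb E, z • φ = conjEmb φ := fun φ => hcc φ
    have hzz : ∀ φ : Emb E, z • z • φ = φ := fun φ => by rw [hzs, hzs, conjEmb_conjEmb]
    have hzne : ∀ φ : Emb E, z • φ ≠ φ := fun φ => by rw [hzs]; exact conjEmb_ne φ
    have hpre : IsPretransitive (galGroup E) (Emb E) := isPretransitive_galGroup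
    have hall : {Φ : Set (Emb E) | IsCMType Φ}.ncard = numTypes E (fun _ => True) := by
      rw [numTypes]
      congr 1
      ext Φ
      simp
    have h2le := two_pow_le (E := E) g hE
    have hle2 : numTypes E (fun _ => True) ≤ 2 ^ g := by
      obtain ⟨X, hX⟩ := exists_transversal (fun s : Emb E => z • s) hzz hzne
      have hXcard : X.card = g := by
        have h1 := two_mul_card_transversal (fun s : Emb E => z • s) hzz X hX
        rw [card_emb, hE] at h1
        omega
      have h1 := numTypes_le z hzs (fun _ => True) (fun _ => True) (fun _ _ _ => trivial)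
      have h2 := ncard_isSgn_le z hzz X hX (fun _ => True)
      rw [hXcard] at h2
      exact h1.trans h2
    have h2le' : ((2 : ℝ) ^ g) ≤ numTypes E (fun _ => True) := by
      rw [← hall]
      exact_mod_cast h2le
    have hle2' : (numTypes E (fun _ => True) : ℝ) ≤ 2 ^ g := by exact_mod_cast hle2
    have hrate0 : 0 ≤ rate E M g := by
      have h1 : 0 ≤ Real.log g := Real.log_natCast_nonneg g
      rw [rate]
      have h2 : 0 ≤ (if 2 ∣ g then (numQuad E M : ℝ) / Real.sqrt g else 0) := by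
        split_ifs <;> positivity
      have h3 : 0 ≤ (if 4 ∣ g then (numQuart E M : ℝ) else 0) := by
        split_ifs <;> positivity
      positivity
    have hl : 0 ≤ Real.log g ^ (-(1 / 4) : ℝ) := Real.rpow_nonneg (Real.log_natCast_nonneg g) _
    have hgr : ∀ k : ℕ, (numTypes E (BeyondUpTo M k) : ℝ)
        ≤ C * (min 1 ((k : ℝ) / relDegree E M) * rate E M g + Real.log g ^ (-(1 / 4) : ℝ))
          * numTypes E (fun _ => True) := by
      intro k
      have h1 : numTypes E (BeyondUpTo M k) ≤ {e : Emb E → ℤ | IsSgn z e ∧ ∃ v ∈ oddRel z e,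
          (∃ φ ψ : Emb E, (∀ x ∈ M, φ x = ψ x) ∧ v φ ≠ v ψ) ∧
          {s : Emb E | v s ≠ 0}.ncard ≤ 4 * k}.ncard := by
        apply numTypes_le z hzs
        rintro Φ hΦ ⟨Γ, iG, iT, F, iF, iC, ρ, n, i, x, hik, hx, hx'⟩
        obtain ⟨v, hv, hne, hsupp⟩ := Sm.pAlgK E Φ hΦ M Γ F ρ n i x hx hx'
        refine ⟨v, ⟨fun s => ?_, fun γ => ?_⟩, hne, by omega⟩
        · rw [hzs]
          exact hv.1 s
        · obtain ⟨τ, hτ⟩ := exists_of_galGroup γ
          rw [← hv.2 τ]
          apply Finset.sum_congr rfl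
          intro φ _
          rw [hτ]
      have hmin : 0 ≤ min 1 ((k : ℝ) / relDegree E M) := le_min zero_le_one (by positivity)
      have h2 : ({e : Emb E → ℤ | IsSgn z e ∧ ∃ v ∈ oddRel z e,
          (∃ φ ψ : Emb E, (∀ x ∈ M, φ x = ψ x) ∧ v φ ≠ v ψ) ∧
          {s : Emb E | v s ≠ 0}.ncard ≤ 4 * k}.ncard : ℝ) ≤
          C * (min 1 ((k : ℝ) / relDegree E M) * rate E M g + Real.log g ^ (-(1 / 4) : ℝ))
            * 2 ^ g := hup E g hE hg2 z hzs M k
      calc (numTypes E (BeyondUpTo M k) : ℝ) ≤ _ := by exact_mod_cast h1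
        _ ≤ _ := h2
        _ ≤ _ := by gcongr
    refine ⟨?_, hgr, ?_⟩
    · -- some codimension bounds them all
      have h1 : ∃ k : ℕ, ∀ Φ : Set (Emb E), Beyond M Φ → BeyondUpTo M k Φ := by
        have h2 : ∀ Φ : Set (Emb E), ∃ k : ℕ, Beyond M Φ → BeyondUpTo M k Φ := by
          intro Φ
          by_cases h : Beyond M Φ
          · obtain ⟨Γ, iG, iT, F, iF, iC, ρ, n, i, x, hx⟩ := h
            exact ⟨i, fun _ => ⟨Γ, iG, iT, F, iF, iC, ρ, n, i, x, le_rfl, hx⟩⟩
          · exact ⟨0, fun h' => absurd h' h⟩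
        choose f hf using h2
        obtain ⟨K, hK⟩ := (Set.finite_range f).bddAbove
        refine ⟨K, fun Φ hΦ => ?_⟩
        obtain ⟨Γ, iG, iT, F, iF, iC, ρ, n, i, x, hi, hx⟩ := hf Φ hΦ
        exact ⟨Γ, iG, iT, F, iF, iC, ρ, n, i, x, hi.trans (hK ⟨Φ, rfl⟩), hx⟩
      obtain ⟨k, hk⟩ := h1
      have h3 : numTypes E (Beyond M) ≤ numTypes E (BeyondUpTo M k) := by
        apply Set.ncard_le_ncard _ (Set.toFinite _)
        rintro Φ ⟨hΦ, h⟩
        exact ⟨hΦ, hk Φ h⟩
      have h4 : min 1 ((k : ℝ) / relDegree E M) ≤ 1 := min_le_left _ _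
      calc (numTypes E (Beyond M) : ℝ) ≤ (numTypes E (BeyondUpTo M k) : ℝ) := by
            exact_mod_cast h3
        _ ≤ _ := hgr k
        _ ≤ C * (1 * rate E M g + Real.log g ^ (-(1 / 4) : ℝ))
              * numTypes E (fun _ => True) := by
            gcongr
        _ = _ := by rw [one_mul]
    · have h1 := hlow E g hE hg1 h2le M
      have h2 : {Φ : Set (Emb E) | IsCMType Φ ∧ OddGal.Primitive Φ ∧ Sm.HasRel M Φ}.ncard
          ≤ numTypes E (fun Φ => IsPrimitive Φ ∧ AlwaysBeyond M Φ) := by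
        apply Set.ncard_le_ncard _ (Set.toFinite _)
        rintro Φ ⟨hΦ, hp, hr⟩
        exact ⟨hΦ, hp, fun Γ _ _ F _ _ ρ => Sm.pNotIn E Φ hΦ hp M hr Γ F ρ⟩
      have hmin : 0 ≤ min 1 (rate E M g) := le_min (by norm_num) hrate0
      calc c * min 1 (rate E M g) * numTypes E (fun _ => True)
          ≤ c * min 1 (rate E M g) * 2 ^ g := by
            gcongr
        _ ≤ _ := h1
        _ ≤ _ := by exact_mod_cast h2
  · have h := Sm.pBot E Φ hΦ Γ F ρ n
    have h' : normAlg (⊥ : IntermediateField ℚ E) n (ρ.onH1 n) ρ.χ = divisorAlg (ρ.onH1 n) ρ.χ := h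
    rw [OutsideClass, h']
    exact Iff.rfl

end Pool.Agent.Results.MP_640417_ag.SharpCriterion
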